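import Pool.Agent.R347.LF.Out
import Pool.Agent.R355.Greedy

/-!
# Disjoint sets of odd zeta values which are linearly independent over the field of well approximable numbers
-/

set_option autoImplicit false

namespace Pool.Agent.R347.LF

open Polynomial Module

theorem disjoint_sets {q : ℕ → ℕ} (hq : ∀ k, 2 ≤ q k) (hunb : ∀ N, ∃ k, N ≤ q k)
    {F : IntermediateField ℚ ℝ} [FiniteDimensional ℚ F] (L : IntermediateField ℚ ℝ)
    (hL : ∀ x, x ∈ L → Ap q F x) {b K s S d v : ℕ} (hK : 1 ≤ K) (hS : 1 ≤ S)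
    (hs : (2 : ℝ) ^ (132 * (d * (v + S))) * ((b : ℝ) + 1) ^ 2 * ((K : ℝ) * S) ^ 3 * Real.log ((K : ℝ) * S + 1) ≤
      (s : ℝ) ^ 2)
    (hF : finrank ℚ F ≤ d) (V : Submodule L ℝ) [Module.Finite L V] (hV : finrank L V ≤ v) :
    ∃ J : Fin K → Finset ℕ, (∀ i i', i ≠ i' → Disjoint (J i) (J i')) ∧ ∀ i, (J i).card = S ∧
      (∀ j ∈ J i, b < j ∧ j ≤ s ∧ Odd j) ∧
      LinearIndependent L (fun j : J i => V.mkQ (∑' n : ℕ, 1 / ((n : ℝ) + 1) ^ (j : ℕ))) := by
  classical
  have hd : 1 ≤ d := le_trans (Nat.one_le_iff_ne_zero.2 finrank_pos.ne') hF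
  obtain ⟨J, hJd, hJ⟩ := Pool.Agent.R355.greedy (S := S) V K hV (fun j => ∑' n : ℕ, 1 / ((n : ℝ) + 1) ^ j)
    ((Finset.range (s + 1)).filter fun j => b < j ∧ Odd j) (by
      intro U hU hUd T hT
      have hU1 : finrank L (U ⊔ Submodule.span L {(1 : ℝ)} : Submodule L ℝ) ≤ v + S := by
        have h5 := Submodule.finrank_add_le_finrank_add_finrank U (Submodule.span L {(1 : ℝ)})
        have h6 : finrank L (Submodule.span L {(1 : ℝ)}) ≤ 1 := finrank_span_le_card {(1 : ℝ)} |>.trans (by simp)
        omega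
      have hfin1 : Module.Finite L (Submodule.span L {(1 : ℝ)}) :=
        FiniteDimensional.span_of_finite L (Set.finite_singleton _)
      have hfinU : Module.Finite L (U ⊔ Submodule.span L {(1 : ℝ)} : Submodule L ℝ) := inferInstance
      have hKS : 1 ≤ K * S := Nat.mul_pos hK hS
      have hS' : 1 ≤ d * (v + S) := Nat.mul_pos hd (by omega)
      obtain ⟨q0, hq0⟩ := (Pool.Agent.Y926.TW.main b (K * S) s (d * (v + S)) hKS hS'
        (by push_cast; exact hs)).2
      by_contra hcon
      push Not at hcon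
      -- all the others are in `U`
      set J0 : Finset ℕ := (Finset.range (s + 1)).filter fun j => b < j ∧ Odd j ∧ j ∉ T with hJ0
      obtain ⟨Q, hQ, hQz⟩ := approx_space hq hunb hS' L hL (U ⊔ Submodule.span L {(1 : ℝ)})
        (Submodule.mem_sup_right (Submodule.mem_span_singleton_self _))
        (Nat.mul_le_mul hF hU1) J0 (fun j => ∑' n : ℕ, 1 / ((n : ℝ) + 1) ^ j)
        (fun j hj => by
          rw [hJ0, Finset.mem_filter] at hj
          exact Submodule.mem_sup_left (hcon j (Finset.mem_filter.2 ⟨hj.1, hj.2.1, hj.2.2.1⟩) hj.2.2.2)) q0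
      have h1 := hq0 Q hQ
      have h2 : {j : ℕ | b < j ∧ j ≤ s ∧ Odd j ∧ ∀ p : ℤ, (Q : ℝ) ^ (-(1 / ((d * (v + S) : ℕ) : ℝ))) ≤
          |(Q : ℝ) * (∑' n : ℕ, 1 / ((n : ℝ) + 1) ^ j) - p|} ⊆ (T : Set ℕ) := by
        rintro j ⟨g1, g2, g3, g4⟩
        by_contra hjT
        obtain ⟨p, hp⟩ := hQz j (by
          rw [hJ0, Finset.mem_filter, Finset.mem_range]
          exact ⟨by omega, g1, g3, hjT⟩)
        exact absurd hp (not_lt.2 (g4 p))
      have h3 := Set.ncard_le_ncard h2 T.finite_toSet
      rw [Set.ncard_coe_finset] at h3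
      have h4 := h1.trans h3
      omega)
  refine ⟨J, hJd, fun i => ⟨(hJ i).2.1, fun j hj => ?_, (hJ i).2.2⟩⟩
  have := (hJ i).1 hj
  rw [Finset.mem_filter, Finset.mem_range] at this
  exact ⟨this.2.1, by omega, this.2.2⟩

/-- every Liouville number is in one of the fields -/
theorem liouville_ap {ξ : ℝ} (hξ : Liouville ξ) : ∃ q : ℕ → ℕ, (∀ k, 2 ≤ q k) ∧ (∀ N, ∃ k, N ≤ q k) ∧
    ∀ F : IntermediateField ℚ ℝ, Ap q F ξ := by
  choose a b hb1 hne hlt using hξ
  -- the denominators
  set q : ℕ → ℕ := fun k => (b k).natAbs with hqdef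
  have hqb : ∀ k, ((q k : ℕ) : ℤ) = b k := fun k => Int.natAbs_of_nonneg (by have := hb1 k; omega)
  have hqbr : ∀ k, ((q k : ℕ) : ℝ) = (b k : ℝ) := fun k => by
    rw [← hqb k]; push_cast; rfl
  have hq2 : ∀ k, 2 ≤ q k := fun k => by have := hb1 k; have := hqb k; omega
  refine ⟨q, hq2, ?_, ?_⟩
  · intro N
    by_contra hcon
    push Not at hcon
    -- the fractions form a finite set
    have hfin : (Set.range fun k => ((a k : ℝ) / (b k : ℝ))).Finite := by
      obtain ⟨M, hM⟩ := exists_nat_ge (|ξ| + 1)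
      have h1 : Set.range (fun k => ((a k : ℝ) / (b k : ℝ))) ⊆
          (fun t : ℤ × ℤ => ((t.1 : ℝ) / (t.2 : ℝ))) '' (Set.Icc (-(M * N : ℤ)) (M * N) ×ˢ Set.Icc 0 (N : ℤ)) := by
        rintro _ ⟨k, rfl⟩
        refine ⟨(a k, b k), ⟨?_, ?_⟩, rfl⟩
        · have hbk : (0 : ℝ) < b k := by
            have := hb1 k
            have h : (0 : ℤ) < b k := by omega
            exact_mod_cast h
          have h2 : |ξ - (a k : ℝ) / b k| ≤ 1 := by
            refine (hlt k).le.trans ?_
            rw [div_le_one (by positivity)]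
            exact one_le_pow₀ (by
              have := hb1 k
              have h : (1 : ℤ) ≤ b k := by omega
              exact_mod_cast h)
          have h3 : |(a k : ℝ) / b k| ≤ M := by
            have : (a k : ℝ) / b k = ξ - (ξ - (a k : ℝ) / b k) := by ring
            rw [this]
            refine (abs_sub _ _).trans ?_
            linarith
          rw [abs_div, div_le_iff₀ (by positivity), abs_of_pos hbk] at h3
          have h4 : (b k : ℝ) ≤ N := by
            rw [← hqbr]
            exact_mod_cast (hcon k).le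
          have h5 : |(a k : ℝ)| ≤ M * N := h3.trans (mul_le_mul_of_nonneg_left h4 (by positivity))
          have h6 : |a k| ≤ (M * N : ℤ) := by exact_mod_cast h5
          exact abs_le.1 h6
        · have := hb1 k
          have h4 := hcon k
          have h5 := hqb k
          exact ⟨by omega, by omega⟩
      exact ((Set.finite_Icc _ _).prod (Set.finite_Icc _ _)).image _ |>.subset h1
    -- a positive distance
    have hpos : ∀ y ∈ Set.range (fun k => ((a k : ℝ) / (b k : ℝ))), 0 < |ξ - y| := by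
      rintro _ ⟨k, rfl⟩
      exact abs_pos.2 (sub_ne_zero.2 (hne k))
    obtain ⟨δ, hδ0, hδ⟩ : ∃ δ : ℝ, 0 < δ ∧ ∀ y ∈ Set.range (fun k => ((a k : ℝ) / (b k : ℝ))), δ ≤ |ξ - y| := by
      obtain ⟨y0, hy0, hmin⟩ := Set.exists_min_image _ (fun y => |ξ - y|) hfin ⟨_, ⟨0, rfl⟩⟩
      exact ⟨|ξ - y0|, hpos y0 hy0, hmin⟩
    obtain ⟨n, hn⟩ := exists_pow_lt_of_lt_one hδ0 (show (1 / 2 : ℝ) < 1 by norm_num)
    have h2 := hδ _ ⟨n, rfl⟩
    have h3 := hlt n
    have h4 : 1 / (b n : ℝ) ^ n ≤ (1 / 2 : ℝ) ^ n := by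
      rw [div_pow, one_pow]
      refine one_div_le_one_div_of_le (by positivity) (pow_le_pow_left₀ (by norm_num) ?_ n)
      have := hb1 n
      have h : (2 : ℤ) ≤ b n := by omega
      exact_mod_cast h
    linarith
  · intro F
    obtain ⟨M, hM⟩ := exists_nat_ge (|ξ| + 1)
    refine ⟨M + 1, fun κ => ⟨κ, fun k hk => ?_⟩⟩
    have hbk : (0 : ℝ) < b k := by
      have := hb1 k
      have h : (0 : ℤ) < b k := by omega
      exact_mod_cast h
    refine ⟨(a k : ℝ) / b k, ?_, ?_, ?_⟩
    · have h : ((a k : ℝ) / b k) = algebraMap ℚ ℝ ((a k : ℚ) / b k) := by simp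
      rw [h]
      exact F.algebraMap_mem _
    · refine ⟨C (b k) * X - C (a k), ?_, fun n => ?_, ?_⟩
      · intro h0
        have h1 := congrArg (fun P : ℤ[X] => P.coeff 1) h0
        beta_reduce at h1
        rw [coeff_sub, coeff_C_mul, coeff_X_one, mul_one, coeff_C_of_ne_zero one_ne_zero, sub_zero,
          coeff_zero] at h1
        have := hb1 k
        omega
      · have hbq : |b k| ≤ ((q k ^ (M + 1) : ℕ) : ℤ) := by
          rw [← hqb k, Nat.abs_cast]
          have : q k ≤ q k ^ (M + 1) := Nat.le_self_pow (by omega) _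
          exact_mod_cast this
        have haq : |a k| ≤ ((q k ^ (M + 1) : ℕ) : ℤ) := by
          have h2 : |ξ - (a k : ℝ) / b k| ≤ 1 := by
            refine (hlt k).le.trans ?_
            rw [div_le_one (by positivity)]
            exact one_le_pow₀ (by
              have := hb1 k
              have h : (1 : ℤ) ≤ b k := by omega
              exact_mod_cast h)
          have h3 : |(a k : ℝ) / b k| ≤ M := by
            have : (a k : ℝ) / b k = ξ - (ξ - (a k : ℝ) / b k) := by ring
            rw [this]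
            refine (abs_sub _ _).trans ?_
            linarith
          rw [abs_div, div_le_iff₀ (by positivity), abs_of_pos hbk, ← hqbr] at h3
          have h4 : |a k| ≤ ((M * q k : ℕ) : ℤ) := by exact_mod_cast h3
          refine h4.trans ?_
          have h5 : M * q k ≤ q k ^ (M + 1) := by
            rw [pow_succ]
            exact Nat.mul_le_mul_right _ (nat_le_pow (hq2 k) M)
          exact_mod_cast h5
        rw [coeff_sub, coeff_C_mul, coeff_X, coeff_C]
        rcases Nat.eq_zero_or_pos n with rfl | hn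
        · simpa using haq
        · rcases Nat.eq_or_lt_of_le (Nat.succ_le_of_lt hn) with h | h
          · have hn1 : n = 1 := by omega
            subst hn1
            simpa using hbq
          · have hn2 : n ≠ 0 := by omega
            have hn3 : ¬ (1 = n) := by omega
            rw [if_neg hn3, if_neg hn2]
            simp
      · rw [map_sub, map_mul, aeval_C, aeval_C, aeval_X, eq_intCast, eq_intCast]
        field_simp
        ring
    · refine (hlt k).le.trans ?_
      rw [one_div, hqbr]
      refine inv_anti₀ (by positivity) (pow_le_pow_right₀ ?_ hk)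
      have := hb1 k
      have h : (1 : ℤ) ≤ b k := by omega
      exact_mod_cast h

end Pool.Agent.R347.LF
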