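import Mathlib

/-!
# Elements of a real number field of bounded complexity
-/

set_option autoImplicit false

namespace Pool.Agent.R347.LF

open Polynomial Module

/-- `a` is a zero of a nonzero polynomial over `ℤ` with coefficients of absolute value at most `N` -/
def Bd (N : ℕ) (a : ℝ) : Prop :=
  ∃ P : ℤ[X], P ≠ 0 ∧ (∀ n, |P.coeff n| ≤ N) ∧ aeval a P = 0

theorem Bd.mono {N M : ℕ} (h : N ≤ M) {a : ℝ} (ha : Bd N a) : Bd M a := by
  obtain ⟨P, h1, h2, h3⟩ := ha
  exact ⟨P, h1, fun n => (h2 n).trans (by exact_mod_cast h), h3⟩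

theorem Bd.inv {N : ℕ} {a : ℝ} (ha : Bd N a) : Bd N a⁻¹ := by
  obtain ⟨P, h1, h2, h3⟩ := ha
  by_cases h0 : a = 0
  · rw [h0, inv_zero, ← h0]
    exact ⟨P, h1, h2, h3⟩
  refine ⟨P.reverse, fun h => h1 (Polynomial.reverse_eq_zero.1 h), fun n => ?_, ?_⟩
  · rw [Polynomial.coeff_reverse]
    exact h2 _
  · have hinv : Invertible a := invertibleOfNonzero h0
    have h4 := Polynomial.eval₂_reverse_eq_zero_iff (algebraMap ℤ ℝ) a P
    rw [invOf_eq_inv] at h4
    rw [aeval_def]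
    exact h4.2 h3

variable (F : IntermediateField ℚ ℝ)

/-- complexity of an element of a number field, by denominators and conjugates -/
def Cx (H : ℕ) (a : F) : Prop :=
  ∃ v : ℕ, 1 ≤ v ∧ v ≤ H ∧ IsIntegral ℤ ((v : F) * a) ∧ ∀ φ : F →+* ℂ, ‖φ a‖ ≤ H

variable {F}

theorem Cx.one_le {H : ℕ} {a : F} (h : Cx F H a) : 1 ≤ H := by
  obtain ⟨v, h1, h2, -⟩ := h
  omega

theorem Cx.mono {H H' : ℕ} (h : H ≤ H') {a : F} (ha : Cx F H a) : Cx F H' a := by
  obtain ⟨v, h1, h2, h3, h4⟩ := ha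
  exact ⟨v, h1, h2.trans h, h3, fun φ => (h4 φ).trans (by exact_mod_cast h)⟩

theorem isIntegral_nat (n : ℕ) : IsIntegral ℤ (n : F) := by
  have h := isIntegral_algebraMap (R := ℤ) (A := F) (x := (n : ℤ))
  have e : algebraMap ℤ F (n : ℤ) = (n : F) := by simp
  rwa [e] at h

theorem isIntegral_natAbs (y : ℤ) (b : F) (h1 : IsIntegral ℤ (y • b)) :
    IsIntegral ℤ ((y.natAbs : F) * b) := by
  rcases Int.natAbs_eq y with h | h
  · rw [h, zsmul_eq_mul, Int.cast_natCast] at h1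
    exact h1
  · rw [h, neg_smul, zsmul_eq_mul, Int.cast_natCast] at h1
    simpa using h1.neg

theorem Cx.add {H H' : ℕ} {a b : F} (ha : Cx F H a) (hb : Cx F H' b) :
    Cx F (2 * H * H') (a + b) := by
  have hH := ha.one_le
  have hH' := hb.one_le
  obtain ⟨v, h1, h2, h3, h4⟩ := ha
  obtain ⟨w, g1, g2, g3, g4⟩ := hb
  refine ⟨v * w, Nat.mul_pos h1 g1, ?_, ?_, fun φ => ?_⟩
  · calc v * w ≤ H * H' := Nat.mul_le_mul h2 g2
      _ ≤ 2 * H * H' := by
        have := Nat.mul_pos hH hH'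
        nlinarith
  · have e : ((v * w : ℕ) : F) * (a + b) = (w : F) * ((v : F) * a) + (v : F) * ((w : F) * b) := by
      push_cast; ring
    rw [e]
    exact ((isIntegral_nat w).mul h3).add ((isIntegral_nat v).mul g3)
  · rw [map_add]
    refine (norm_add_le _ _).trans ((add_le_add (h4 φ) (g4 φ)).trans ?_)
    have : H + H' ≤ 2 * H * H' := by nlinarith
    exact_mod_cast this

theorem Cx.mul {H H' : ℕ} {a b : F} (ha : Cx F H a) (hb : Cx F H' b) :
    Cx F (2 * H * H') (a * b) := by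
  have hH := ha.one_le
  have hH' := hb.one_le
  obtain ⟨v, h1, h2, h3, h4⟩ := ha
  obtain ⟨w, g1, g2, g3, g4⟩ := hb
  have hle : H * H' ≤ 2 * H * H' := by nlinarith [Nat.mul_pos hH hH']
  refine ⟨v * w, Nat.mul_pos h1 g1, (Nat.mul_le_mul h2 g2).trans hle, ?_, fun φ => ?_⟩
  · have e : ((v * w : ℕ) : F) * (a * b) = ((v : F) * a) * ((w : F) * b) := by
      push_cast; ring
    rw [e]
    exact h3.mul g3
  · rw [map_mul, norm_mul]
    calc ‖φ a‖ * ‖φ b‖ ≤ (H : ℝ) * H' := mul_le_mul (h4 φ) (g4 φ) (norm_nonneg _) (by positivity)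
      _ ≤ ((2 * H * H' : ℕ) : ℝ) := by exact_mod_cast hle

/-- from polynomials to denominators and conjugates -/
theorem Bd.cx {N : ℕ} {a : F} (ha : Bd N (a : ℝ)) : Cx F (N + 1) a := by
  obtain ⟨P, h1, h2, h3⟩ := ha
  have h3' : aeval a P = 0 := by
    have h : ((aeval a P : F) : ℝ) = aeval (a : ℝ) P := by
      have := Polynomial.aeval_algebraMap_apply ℝ a P
      exact this.symm
    have h' : ((aeval a P : F) : ℝ) = ((0 : F) : ℝ) := by rw [h, h3]; rfl
    exact Subtype.coe_injective h'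
  have hlc : P.leadingCoeff ≠ 0 := leadingCoeff_ne_zero.2 h1
  refine ⟨P.leadingCoeff.natAbs, Int.natAbs_pos.2 hlc, ?_, ?_, fun φ => ?_⟩
  · have h4 := h2 P.natDegree
    rw [coeff_natDegree, Int.abs_eq_natAbs] at h4
    omega
  · have h5 : IsIntegral ℤ (P.leadingCoeff • a) := isIntegral_leadingCoeff_smul P a h3'
    exact isIntegral_natAbs _ _ h5
  · -- the Cauchy bound
    set p : ℂ[X] := P.map (Int.castRingHom ℂ) with hp
    have hp0 : p ≠ 0 := (Polynomial.map_ne_zero_iff (RingHom.injective_int _)).2 h1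
    have hroot : p.IsRoot (φ a) := by
      rw [hp, IsRoot.def, eval_map]
      have h5 : eval₂ (Int.castRingHom ℂ) (φ a) P = φ (aeval a P) := by
        rw [aeval_def, hom_eval₂]
        congr 1
        exact (RingHom.ext_int _ _)
      rw [h5, h3', map_zero]
    have h6 := hroot.norm_lt_cauchyBound hp0
    have h7 : p.cauchyBound ≤ N + 1 := by
      unfold Polynomial.cauchyBound
      have h8 : (1 : NNReal) ≤ ‖p.leadingCoeff‖₊ := by
        have h9 : p.leadingCoeff = (P.leadingCoeff : ℂ) := by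
          rw [hp, leadingCoeff_map_of_injective (RingHom.injective_int _)]
          rfl
        rw [h9, ← NNReal.coe_le_coe, coe_nnnorm, NNReal.coe_one, Complex.norm_intCast]
        exact_mod_cast Int.one_le_abs hlc
      have h10 : ((Finset.range p.natDegree).sup fun x => ‖p.coeff x‖₊) ≤ (N : NNReal) := by
        refine Finset.sup_le fun n _ => ?_
        rw [hp, coeff_map, ← NNReal.coe_le_coe, coe_nnnorm]
        change ‖((P.coeff n : ℤ) : ℂ)‖ ≤ _
        rw [Complex.norm_intCast, NNReal.coe_natCast]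
        exact_mod_cast h2 n
      refine add_le_add ?_ le_rfl
      exact (div_le_of_le_mul₀ (by positivity) (by positivity) (by
        calc _ ≤ (N : NNReal) * 1 := by rw [mul_one]; exact h10
          _ ≤ _ := mul_le_mul_of_nonneg_left h8 (by positivity)))
    have h11 : ‖φ a‖₊ < N + 1 := h6.trans_le h7
    have h12 : ‖φ a‖ < N + 1 := by exact_mod_cast h11
    push_cast
    exact h12.le

/-- from denominators and conjugates to polynomials -/
theorem Cx.bd [FiniteDimensional ℚ F] : ∃ c : ℕ, ∀ (H : ℕ) (a : F), Cx F H a →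
    Bd (H ^ c * c) (a : ℝ) := by
  have hNF : NumberField F := ⟨⟩
  set d := finrank ℚ F with hd
  refine ⟨3 * d + d.choose (d / 2) + 1, fun H a ha => ?_⟩
  have hH := ha.one_le
  obtain ⟨v, h1, h2, h3, h4⟩ := ha
  set β : F := (v : F) * a with hβ
  have hmin := minpoly.isIntegrallyClosed_eq_field_fractions' ℚ h3
  have hb : ∀ φ : F →+* ℂ, ‖φ β‖ ≤ (H : ℝ) ^ 2 := by
    intro φ
    rw [hβ, map_mul, map_natCast, norm_mul, Complex.norm_natCast, sq]
    exact mul_le_mul (by exact_mod_cast h2) (h4 φ) (norm_nonneg _) (by positivity)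
  have hc := NumberField.Embeddings.coeff_bdd_of_norm_le hb
  have hH1 : (1 : ℝ) ≤ (H : ℝ) ^ 2 := one_le_pow₀ (by exact_mod_cast hH)
  rw [max_eq_left hH1] at hc
  set μ : ℤ[X] := minpoly ℤ β with hμ
  have hc' : ∀ i, |μ.coeff i| ≤ (H ^ 2) ^ d * d.choose (d / 2) := by
    intro i
    have h5 := hc i
    rw [hmin, coeff_map, eq_intCast] at h5
    have h6 : ‖((μ.coeff i : ℤ) : ℚ)‖ = |((μ.coeff i : ℤ) : ℝ)| := by
      rw [← Rat.norm_cast_real, Rat.cast_intCast, Real.norm_eq_abs]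
    rw [h6] at h5
    exact_mod_cast h5
  have hμd : μ.natDegree ≤ d := by
    have h7 : (minpoly ℚ β).natDegree = μ.natDegree := by
      rw [hmin, natDegree_map_eq_of_injective (RingHom.injective_int _)]
    rw [← h7]
    exact minpoly.natDegree_le β
  have hμ0 : μ ≠ 0 := minpoly.ne_zero h3
  refine ⟨μ.comp (C (v : ℤ) * X), ?_, fun n => ?_, ?_⟩
  · intro h0
    apply hμ0
    ext i
    have h8 := congrArg (fun p : ℤ[X] => p.coeff i) h0
    simp only [comp_C_mul_X_coeff, coeff_zero, mul_eq_zero] at h8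
    rw [coeff_zero]
    rcases h8 with h8 | h8
    · exact h8
    · have := pow_ne_zero i (show (v : ℤ) ≠ 0 by exact_mod_cast (by omega : v ≠ 0))
      exact absurd h8 this
  · rw [comp_C_mul_X_coeff]
    by_cases hn : n ≤ d
    · rw [abs_mul, abs_pow, Nat.abs_cast]
      have h9 : (v : ℤ) ^ n ≤ (H : ℤ) ^ d := by
        calc (v : ℤ) ^ n ≤ (H : ℤ) ^ n := by
              exact pow_le_pow_left₀ (by positivity) (by exact_mod_cast h2) n
          _ ≤ (H : ℤ) ^ d := pow_le_pow_right₀ (by exact_mod_cast hH) hn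
      calc |μ.coeff n| * (v : ℤ) ^ n ≤ ((H ^ 2) ^ d * d.choose (d / 2)) * (H : ℤ) ^ d :=
            mul_le_mul (hc' n) h9 (by positivity) (by positivity)
        _ = ((H ^ (3 * d) * d.choose (d / 2) : ℕ) : ℤ) := by push_cast; ring
        _ ≤ _ := by
          apply Nat.cast_le.2
          refine Nat.mul_le_mul (Nat.pow_le_pow_right hH (by omega)) (by omega)
    · rw [coeff_eq_zero_of_natDegree_lt (by omega), zero_mul, abs_zero]
      positivity
  · have h10 : aeval a (μ.comp (C (v : ℤ) * X)) = 0 := by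
      rw [aeval_comp]
      have : aeval a (C (v : ℤ) * X) = β := by
        rw [map_mul, aeval_C, aeval_X, hβ]
        simp
      rw [this, hμ, minpoly.aeval]
    have h11 := Polynomial.aeval_algebraMap_apply ℝ a (μ.comp (C (v : ℤ) * X))
    rw [h10, map_zero] at h11
    exact h11

/-- coordinates -/
theorem Cx.coord [FiniteDimensional ℚ F] {n : ℕ} (B : Basis (Fin n) ℚ F) : ∃ c : ℕ, 1 ≤ c ∧
    ∀ (H : ℕ) (a : F), Cx F H a → ∃ (v : ℕ) (m : Fin n → ℤ), 1 ≤ v ∧ v ≤ c * H ∧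
      (∀ l, |m l| ≤ c * H ^ 2) ∧ (a : ℝ) = (∑ l, (m l : ℝ) * (B l : ℝ)) / v := by
  classical
  have hNF : NumberField F := ⟨⟩
  set B' := (Algebra.traceForm ℚ F).dualBasis (traceForm_nondegenerate ℚ F) B with hB'
  obtain ⟨y, hy0, hy⟩ := exists_integral_multiples ℤ ℚ (Finset.univ.image B')
  set Δ : ℕ := y.natAbs with hΔ
  have hΔ1 : 1 ≤ Δ := Int.natAbs_pos.2 hy0
  have hint : ∀ l, IsIntegral ℤ ((Δ : F) * B' l) := by
    intro l
    have h1 := hy (B' l) (Finset.mem_image_of_mem _ (Finset.mem_univ l))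
    exact isIntegral_natAbs _ _ h1
  -- a bound for the conjugates
  obtain ⟨C, hC⟩ : ∃ C : ℕ, ∀ l, ∀ φ : F →ₐ[ℚ] ℂ, ‖φ ((Δ : F) * B' l)‖ ≤ C := by
    obtain ⟨C, hC⟩ := exists_nat_ge (∑ l, ∑ φ : F →ₐ[ℚ] ℂ, ‖φ ((Δ : F) * B' l)‖)
    refine ⟨C, fun l φ => le_trans ?_ hC⟩
    have h1 : ‖φ ((Δ : F) * B' l)‖ ≤ ∑ φ : F →ₐ[ℚ] ℂ, ‖φ ((Δ : F) * B' l)‖ :=
      Finset.single_le_sum (f := fun φ : F →ₐ[ℚ] ℂ => ‖φ ((Δ : F) * B' l)‖)
        (fun _ _ => norm_nonneg _) (Finset.mem_univ φ)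
    have h2 : ∑ φ : F →ₐ[ℚ] ℂ, ‖φ ((Δ : F) * B' l)‖ ≤ ∑ l, ∑ φ : F →ₐ[ℚ] ℂ, ‖φ ((Δ : F) * B' l)‖ :=
      Finset.single_le_sum (f := fun l => ∑ φ : F →ₐ[ℚ] ℂ, ‖φ ((Δ : F) * B' l)‖)
        (fun _ _ => Finset.sum_nonneg fun _ _ => norm_nonneg _) (Finset.mem_univ l)
    exact h1.trans h2
  set N := Fintype.card (F →ₐ[ℚ] ℂ) with hN
  refine ⟨Δ + N * C, by omega, fun H a ha => ?_⟩
  have hH := ha.one_le
  obtain ⟨v, h1, h2, h3, h4⟩ := ha
  -- the coordinates are traces
  have h5 : ∀ l, ∃ m : ℤ, (m : ℚ) = (Δ * v : ℕ) * B.repr a l ∧ |(m : ℝ)| ≤ N * (C * (H * H)) := by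
    intro l
    have h6 : Algebra.trace ℚ F (((Δ : F) * B' l) * ((v : F) * a)) = (Δ * v : ℕ) * B.repr a l := by
      have e1 : ((Δ : F) * B' l) * ((v : F) * a) = ((Δ * v : ℕ) : ℚ) • (B' l * a) := by
        rw [Algebra.smul_def, map_natCast]; push_cast; ring
      rw [e1, map_smul, smul_eq_mul]
      congr 1
      have e2 : Algebra.trace ℚ F (B' l * a) = Algebra.traceForm ℚ F (B' l) a := rfl
      rw [e2]
      conv_lhs => rw [← B.sum_repr a]
      rw [map_sum]
      simp only [map_smul, smul_eq_mul]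
      rw [Finset.sum_eq_single l]
      · rw [hB', LinearMap.BilinForm.apply_dualBasis_left, if_pos rfl, mul_one]
      · intro j _ hj
        rw [hB', LinearMap.BilinForm.apply_dualBasis_left, if_neg hj, mul_zero]
      · intro h; exact absurd (Finset.mem_univ l) h
    have h7 : IsIntegral ℤ (Algebra.trace ℚ F (((Δ : F) * B' l) * ((v : F) * a))) :=
      Algebra.isIntegral_trace ((hint l).mul h3)
    obtain ⟨m, hm⟩ := IsIntegrallyClosed.isIntegral_iff.1 h7
    refine ⟨m, by rw [← h6, ← hm]; rfl, ?_⟩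
    have h8 := trace_eq_sum_embeddings (K := ℚ) (L := F) ℂ (x := ((Δ : F) * B' l) * ((v : F) * a))
    rw [← hm] at h8
    have h9 : (algebraMap ℚ ℂ) ((algebraMap ℤ ℚ) m) = ((m : ℝ) : ℂ) := by simp
    rw [h9] at h8
    have h10 : |(m : ℝ)| = ‖((m : ℝ) : ℂ)‖ := by rw [Complex.norm_real, Real.norm_eq_abs]
    rw [h10, h8]
    refine (norm_sum_le _ _).trans ?_
    calc ∑ φ : F →ₐ[ℚ] ℂ, ‖φ (((Δ : F) * B' l) * ((v : F) * a))‖
        ≤ ∑ φ : F →ₐ[ℚ] ℂ, ((C : ℝ) * (H * H)) := by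
          refine Finset.sum_le_sum fun φ _ => ?_
          rw [map_mul, norm_mul]
          refine mul_le_mul (hC l φ) ?_ (norm_nonneg _) (by positivity)
          rw [map_mul, map_natCast, norm_mul, Complex.norm_natCast]
          exact mul_le_mul (by exact_mod_cast h2) (h4 φ.toRingHom) (norm_nonneg _) (by positivity)
      _ = _ := by rw [Finset.sum_const, Finset.card_univ, nsmul_eq_mul, hN]
  choose m hm1 hm2 using h5
  refine ⟨Δ * v, m, Nat.mul_pos hΔ1 h1, ?_, fun l => ?_, ?_⟩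
  · exact Nat.mul_le_mul (by omega) h2
  · have h6 := hm2 l
    have h7 : |m l| ≤ (N * (C * (H * H)) : ℕ) := by exact_mod_cast h6
    refine h7.trans ?_
    have h8 : N * (C * (H * H)) ≤ (Δ + N * C) * H ^ 2 := by
      calc N * (C * (H * H)) = (N * C) * H ^ 2 := by ring
        _ ≤ _ := Nat.mul_le_mul_right _ (by omega)
    exact_mod_cast h8
  · have hv0 : ((Δ * v : ℕ) : ℝ) ≠ 0 := by
      have := Nat.mul_pos hΔ1 h1
      exact_mod_cast this.ne'
    rw [eq_div_iff hv0]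
    have h6 : (a : ℝ) = ∑ l, ((B.repr a l : ℚ) : ℝ) * (B l : ℝ) := by
      conv_lhs => rw [← B.sum_repr a]
      push_cast
      refine Finset.sum_congr rfl fun l _ => ?_
      exact Rat.smul_def _ _
    rw [h6, Finset.sum_mul]
    refine Finset.sum_congr rfl fun l _ => ?_
    have h7 : ((m l : ℤ) : ℝ) = ((Δ * v : ℕ) : ℝ) * ((B.repr a l : ℚ) : ℝ) := by
      have := congrArg (fun x : ℚ => (x : ℝ)) (hm1 l)
      push_cast at this ⊢
      exact this
    rw [h7]
    ring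

end Pool.Agent.R347.LF
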