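import Pool.Agent.R347.LF.Cx

/-!
# The field of the real numbers with good approximations in a number field
-/

set_option autoImplicit false

namespace Pool.Agent.R347.LF

open Polynomial Module

/-- `x` has for some `h` and every `κ`, for all large `k`, an approximation in `F` of complexity at most
`(q k) ^ h` with an error of at most `(q k) ^ (-κ)` -/
def Ap (q : ℕ → ℕ) (F : IntermediateField ℚ ℝ) (x : ℝ) : Prop :=
  ∃ h : ℕ, ∀ κ : ℕ, ∃ k₀ : ℕ, ∀ k ≥ k₀, ∃ a ∈ F, Bd (q k ^ h) a ∧ |x - a| ≤ (((q k : ℕ) : ℝ) ^ κ)⁻¹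

/-- the same with the other complexity -/
def Ap' (q : ℕ → ℕ) (F : IntermediateField ℚ ℝ) (x : ℝ) : Prop :=
  ∃ h : ℕ, ∀ κ : ℕ, ∃ k₀ : ℕ, ∀ k ≥ k₀, ∃ a : F, Cx F (q k ^ h) a ∧
    |x - (a : ℝ)| ≤ (((q k : ℕ) : ℝ) ^ κ)⁻¹

theorem nat_le_pow {q : ℕ} (hq : 2 ≤ q) (c : ℕ) : c ≤ q ^ c :=
  (Nat.lt_pow_self (by omega : 1 < q)).le

variable {q : ℕ → ℕ} (hq : ∀ k, 2 ≤ q k) {F : IntermediateField ℚ ℝ} [FiniteDimensional ℚ F]

include hq

omit [FiniteDimensional ℚ F] in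
theorem Ap.to {x : ℝ} (hx : Ap q F x) : Ap' q F x := by
  obtain ⟨h, hh⟩ := hx
  refine ⟨h + 1, fun κ => ?_⟩
  obtain ⟨k₀, hk₀⟩ := hh κ
  refine ⟨k₀, fun k hk => ?_⟩
  obtain ⟨a, haF, ha, hxa⟩ := hk₀ k hk
  refine ⟨⟨a, haF⟩, (Bd.cx (a := ⟨a, haF⟩) ha).mono ?_, hxa⟩
  have h1 := hq k
  have h2 : 1 ≤ q k ^ h := Nat.one_le_pow _ _ (by omega)
  rw [pow_succ]
  nlinarith

theorem Ap'.to {x : ℝ} (hx : Ap' q F x) : Ap q F x := by
  obtain ⟨h, hh⟩ := hx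
  obtain ⟨c, hc⟩ := Cx.bd (F := F)
  refine ⟨h * c + c, fun κ => ?_⟩
  obtain ⟨k₀, hk₀⟩ := hh κ
  refine ⟨k₀, fun k hk => ?_⟩
  obtain ⟨a, ha, hxa⟩ := hk₀ k hk
  refine ⟨a, a.2, (hc _ _ ha).mono ?_, hxa⟩
  rw [pow_add, pow_mul]
  exact Nat.mul_le_mul_left _ (nat_le_pow (hq k) c)

omit [FiniteDimensional ℚ F] in
/-- a combination of two approximations -/
theorem Ap'.comb {x y : ℝ} (hx : Ap' q F x) (hy : Ap' q F y) (op : F → F → F) (z : ℝ)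
    (h1 : ∀ (H H' : ℕ) (a b : F), Cx F H a → Cx F H' b → Cx F (2 * H * H') (op a b))
    (C : ℝ) (h2 : ∀ (a b : F) (ε : ℝ), 0 ≤ ε → ε ≤ 1 → |x - (a : ℝ)| ≤ ε → |y - (b : ℝ)| ≤ ε →
      |z - ((op a b : F) : ℝ)| ≤ C * ε) : Ap' q F z := by
  obtain ⟨h, hh⟩ := hx
  obtain ⟨g, hg⟩ := hy
  obtain ⟨c, hc⟩ := exists_nat_ge C
  refine ⟨h + g + 1, fun κ => ?_⟩
  obtain ⟨k₀, hk₀⟩ := hh (κ + c)
  obtain ⟨k₁, hk₁⟩ := hg (κ + c)
  refine ⟨max k₀ k₁, fun k hk => ?_⟩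
  obtain ⟨a, ha, hxa⟩ := hk₀ k (le_trans (le_max_left _ _) hk)
  obtain ⟨b, hb, hyb⟩ := hk₁ k (le_trans (le_max_right _ _) hk)
  have hq2 := hq k
  have hqr : (2 : ℝ) ≤ (q k : ℝ) := by exact_mod_cast hq2
  refine ⟨op a b, (h1 _ _ a b ha hb).mono ?_, ?_⟩
  · calc 2 * q k ^ h * q k ^ g ≤ q k * q k ^ h * q k ^ g :=
        Nat.mul_le_mul_right _ (Nat.mul_le_mul_right _ hq2)
      _ = q k ^ (h + g + 1) := by ring
  · have h3 := h2 a b _ (by positivity) (by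
      exact inv_le_one_of_one_le₀ (one_le_pow₀ (by linarith))) hxa hyb
    refine h3.trans ?_
    have h4 : (c : ℝ) ≤ (q k : ℝ) ^ c := by exact_mod_cast nat_le_pow hq2 c
    have h5 : (0 : ℝ) < (q k : ℝ) ^ c := by positivity
    rw [pow_add, mul_inv]
    calc C * (((q k : ℝ) ^ κ)⁻¹ * ((q k : ℝ) ^ c)⁻¹)
        ≤ (q k : ℝ) ^ c * (((q k : ℝ) ^ κ)⁻¹ * ((q k : ℝ) ^ c)⁻¹) :=
          mul_le_mul_of_nonneg_right (hc.trans h4) (by positivity)
      _ = ((q k : ℝ) ^ κ)⁻¹ := by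
          rw [mul_comm ((q k : ℝ) ^ κ)⁻¹, ← mul_assoc, mul_inv_cancel₀ h5.ne', one_mul]

omit [FiniteDimensional ℚ F] in
theorem Ap'.add {x y : ℝ} (hx : Ap' q F x) (hy : Ap' q F y) : Ap' q F (x + y) := by
  refine hx.comb hq hy (· + ·) _ (fun H H' a b ha hb => ha.add hb) 2 fun a b ε h0 h1 h2 h3 => ?_
  have e : x + y - ((a + b : F) : ℝ) = (x - a) + (y - b) := by push_cast; ring
  rw [e]
  refine (abs_add_le _ _).trans ?_
  linarith

omit [FiniteDimensional ℚ F] in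
theorem Ap'.mul {x y : ℝ} (hx : Ap' q F x) (hy : Ap' q F y) : Ap' q F (x * y) := by
  refine hx.comb hq hy (· * ·) _ (fun H H' a b ha hb => ha.mul hb) (|x| + |y| + 1)
    fun a b ε h0 h1 h2 h3 => ?_
  have e : x * y - ((a * b : F) : ℝ) = x * (y - b) + (b : ℝ) * (x - a) := by push_cast; ring
  rw [e]
  refine (abs_add_le _ _).trans ?_
  rw [abs_mul, abs_mul]
  have h4 : |(b : ℝ)| ≤ |y| + 1 := by
    have : (b : ℝ) = y - (y - b) := by ring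
    rw [this]
    refine (abs_sub _ _).trans ?_
    linarith
  have h5 : |x| * |y - b| ≤ |x| * ε := mul_le_mul_of_nonneg_left h3 (abs_nonneg _)
  have h6 : |(b : ℝ)| * |x - a| ≤ (|y| + 1) * ε :=
    mul_le_mul h4 h2 (abs_nonneg _) (by positivity)
  linarith

omit [FiniteDimensional ℚ F] in
theorem Ap.inv {x : ℝ} (hx : Ap q F x) : Ap q F x⁻¹ := by
  by_cases h0 : x = 0
  · rw [h0, inv_zero, ← h0]
    exact hx
  have hx0 : 0 < |x| := abs_pos.2 h0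
  obtain ⟨h, hh⟩ := hx
  obtain ⟨c, hc⟩ := exists_nat_ge (2 / |x|)
  obtain ⟨c', hc'⟩ := exists_nat_ge (2 / (|x| * |x|))
  refine ⟨h, fun κ => ?_⟩
  obtain ⟨k₀, hk₀⟩ := hh (κ + c + c')
  refine ⟨k₀, fun k hk => ?_⟩
  obtain ⟨a, haF, ha, hxa⟩ := hk₀ k hk
  refine ⟨a⁻¹, F.inv_mem haF, ha.inv, ?_⟩
  have hq2 := hq k
  have hqr : (2 : ℝ) ≤ (q k : ℝ) := by exact_mod_cast hq2
  have hqc : ∀ n : ℕ, (n : ℝ) ≤ (q k : ℝ) ^ n := fun n => by exact_mod_cast nat_le_pow hq2 n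
  have hqp : ∀ n : ℕ, (0 : ℝ) < (q k : ℝ) ^ n := fun n => by positivity
  -- the error is small
  have h1 : |x - a| ≤ |x| / 2 := by
    refine hxa.trans ?_
    have h2 : 2 / |x| ≤ (q k : ℝ) ^ (κ + c + c') := by
      refine (hc.trans (hqc c)).trans (pow_le_pow_right₀ (by linarith) (by omega))
    rw [inv_le_comm₀ (hqp _) (by positivity)]
    rw [inv_div]
    exact h2
  have h3 : |x| / 2 ≤ |a| := by
    have h4 : |x| ≤ |x - a| + |a| := by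
      have : x = (x - a) + a := by ring
      conv_lhs => rw [this]
      exact abs_add_le _ _
    linarith
  have ha0 : a ≠ 0 := by
    intro h
    rw [h, abs_zero] at h3
    linarith
  have e : x⁻¹ - a⁻¹ = (a - x) / (x * a) := by field_simp
  rw [e, abs_div, abs_mul, abs_sub_comm a x]
  have h5 : |x - a| / (|x| * |a|) ≤ |x - a| * (2 / (|x| * |x|)) := by
    rw [div_eq_mul_inv]
    refine mul_le_mul_of_nonneg_left ?_ (abs_nonneg _)
    rw [inv_le_comm₀ (by positivity) (by positivity), inv_div]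
    have : |x| * |x| / 2 = |x| * (|x| / 2) := by ring
    rw [this]
    exact mul_le_mul_of_nonneg_left h3 hx0.le
  refine h5.trans ?_
  calc |x - a| * (2 / (|x| * |x|)) ≤ ((q k : ℝ) ^ (κ + c + c'))⁻¹ * (q k : ℝ) ^ c' :=
        mul_le_mul hxa (hc'.trans (hqc c')) (by positivity) (by positivity)
    _ = ((q k : ℝ) ^ (κ + c))⁻¹ := by
        rw [pow_add _ (κ + c) c', mul_inv, mul_assoc, inv_mul_cancel₀ (hqp _).ne', mul_one]
    _ ≤ ((q k : ℝ) ^ κ)⁻¹ :=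
        inv_anti₀ (hqp _) (pow_le_pow_right₀ (by linarith) (by omega))

omit [FiniteDimensional ℚ F] in
/-- the elements of an algebraic field -/
theorem Ap.ofMem {x : ℝ} (hx : x ∈ F) (hal : IsAlgebraic ℤ x) : Ap q F x := by
  obtain ⟨P, hP, hPx⟩ := hal
  obtain ⟨N, hN⟩ : ∃ N : ℕ, ∀ n, |P.coeff n| ≤ N := by
    refine ⟨∑ i ∈ P.support, (P.coeff i).natAbs, fun n => ?_⟩
    by_cases hn : n ∈ P.support
    · rw [Int.abs_eq_natAbs]
      exact_mod_cast Finset.single_le_sum (f := fun i => (P.coeff i).natAbs)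
        (fun _ _ => Nat.zero_le _) hn
    · rw [notMem_support_iff.1 hn, abs_zero]
      positivity
  refine ⟨N, fun κ => ⟨0, fun k _ => ⟨x, hx, ⟨P, hP, fun n => (hN n).trans ?_, hPx⟩, ?_⟩⟩⟩
  · exact_mod_cast nat_le_pow (hq k) N
  · rw [sub_self, abs_zero]
    positivity

/-- the field of the numbers with good approximations in `F` -/
def LL (F : IntermediateField ℚ ℝ) [FiniteDimensional ℚ F] : IntermediateField ℚ ℝ where
  carrier := {x | Ap q F x}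
  mul_mem' := fun ha hb => ((ha.to hq).mul hq (hb.to hq)).to hq
  one_mem' := Ap.ofMem hq F.one_mem isAlgebraic_one
  add_mem' := fun ha hb => ((ha.to hq).add hq (hb.to hq)).to hq
  zero_mem' := Ap.ofMem hq F.zero_mem isAlgebraic_zero
  algebraMap_mem' := fun r => Ap.ofMem hq (F.algebraMap_mem r) (by
    have h := isAlgebraic_algebraMap (R := ℚ) (A := ℝ) r
    exact (IsFractionRing.isAlgebraic_iff ℤ ℚ ℝ).2 h)
  inv_mem' := fun _ hx => Ap.inv hq hx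

theorem mem_LL {x : ℝ} : x ∈ LL hq F ↔ Ap q F x := Iff.rfl

theorem le_LL : F ≤ LL hq F := by
  intro x hx
  refine Ap.ofMem hq hx ?_
  have h : IsAlgebraic ℚ (⟨x, hx⟩ : F) := Algebra.IsAlgebraic.isAlgebraic _
  have h' : IsAlgebraic ℚ x := h.algebraMap (A := ℝ)
  exact (IsFractionRing.isAlgebraic_iff ℤ ℚ ℝ).2 h'

end Pool.Agent.R347.LF
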