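import Pool.Agent.R347.LF.Fld
import Pool.Agent.R355.Dirichlet

/-!
# Simultaneous approximation of the elements of a finite dimensional space over the field of well
# approximable numbers
-/

set_option autoImplicit false

namespace Pool.Agent.R347.LF

open Polynomial Module

/-- Dirichlet's theorem for finitely many elements of a rational space -/
theorem dirichlet_space {S : ℕ} {ι : Type} [Fintype ι] (W : Submodule ℚ ℝ) [FiniteDimensional ℚ W]
    (h1 : (1 : ℝ) ∈ W) (hS : finrank ℚ W ≤ S) (y : ι → ℝ) (hy : ∀ t, y t ∈ W) :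
    ∃ N C : ℕ, 1 ≤ N ∧ 1 ≤ C ∧ ∀ Q : ℕ, 1 ≤ Q → ∃ m : ℕ, 1 ≤ m ∧ m ≤ Q ^ (S - 1) ∧
      ∀ t, ∃ p : ℤ, |(m * N : ℝ) * y t - p| ≤ C / Q := by
  classical
  let u : W := ⟨1, h1⟩
  have hu : u ≠ 0 := fun h => one_ne_zero (congrArg Subtype.val h)
  obtain ⟨C, hC⟩ := Submodule.exists_isCompl (Submodule.span ℚ {u})
  have hfr : finrank ℚ C + 1 = finrank ℚ W := by
    have h2 := Submodule.finrank_add_eq_of_isCompl hC
    rw [finrank_span_singleton hu] at h2
    omega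
  set D := finrank ℚ C with hD
  let b : Basis (Fin D) ℚ C := finBasis ℚ C
  -- coordinates
  have hco : ∀ t, ∃ (r : ℚ) (s : Fin D → ℚ), y t = r + ∑ i, (s i : ℝ) * ((b i : W) : ℝ) := by
    intro t
    have h3 : (⟨y t, hy t⟩ : W) ∈ Submodule.span ℚ {u} ⊔ C := by
      rw [hC.sup_eq_top]; trivial
    obtain ⟨a, ha, c, hc, hac⟩ := Submodule.mem_sup.1 h3
    obtain ⟨r, rfl⟩ := Submodule.mem_span_singleton.1 ha
    refine ⟨r, fun i => b.repr ⟨c, hc⟩ i, ?_⟩
    have h4 : c = ∑ i, b.repr ⟨c, hc⟩ i • (b i : W) := by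
      have h := congrArg C.subtype (b.sum_repr ⟨c, hc⟩)
      rw [map_sum] at h
      simp only [map_smul, Submodule.subtype_apply] at h
      exact h.symm
    have h5 := congrArg Subtype.val hac
    have h6 : (c : ℝ) = ∑ i, ((b.repr ⟨c, hc⟩ i : ℚ) : ℝ) * ((b i : W) : ℝ) := by
      conv_lhs => rw [h4]
      push_cast
      refine Finset.sum_congr rfl fun i _ => ?_
      exact Rat.smul_def _ _
    have h7 : ((r • u : W) : ℝ) = r := by
      change r • (1 : ℝ) = r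
      rw [Rat.smul_def, mul_one]
    have h8 : (((r • u + c : W)) : ℝ) = ((r • u : W) : ℝ) + (c : ℝ) := rfl
    rw [← h6, ← h7, ← h8]
    exact h5.symm
  choose r s hrs using hco
  -- a common denominator
  obtain ⟨N, hN1, hN2, hN3⟩ : ∃ N : ℕ, 1 ≤ N ∧ (∀ t, ∃ a : ℤ, (N : ℚ) * r t = a) ∧
      ∀ t i, ∃ a : ℤ, (N : ℚ) * s t i = a := by
    refine ⟨(∏ t, (r t).den) * ∏ t, ∏ i, (s t i).den, ?_, fun t => ?_, fun t i => ?_⟩
    · exact Nat.mul_pos (Finset.prod_pos fun t _ => (r t).den_pos)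
        (Finset.prod_pos fun t _ => Finset.prod_pos fun i _ => (s t i).den_pos)
    · obtain ⟨w, hw⟩ : (r t).den ∣ (∏ t, (r t).den) * ∏ t, ∏ i, (s t i).den :=
        (Finset.dvd_prod_of_mem _ (Finset.mem_univ t)).mul_right _
      refine ⟨w * (r t).num, ?_⟩
      rw [hw]
      push_cast
      rw [mul_comm ((r t).den : ℚ), mul_assoc, mul_comm ((r t).den : ℚ), Rat.mul_den_eq_num]
    · obtain ⟨w, hw⟩ : (s t i).den ∣ (∏ t, (r t).den) * ∏ t, ∏ i, (s t i).den :=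
        ((Finset.dvd_prod_of_mem (fun i => (s t i).den) (Finset.mem_univ i)).trans
          (Finset.dvd_prod_of_mem (fun t => ∏ i, (s t i).den) (Finset.mem_univ t))).mul_left _
      refine ⟨w * (s t i).num, ?_⟩
      rw [hw]
      push_cast
      rw [mul_comm ((s t i).den : ℚ), mul_assoc, mul_comm ((s t i).den : ℚ), Rat.mul_den_eq_num]
  choose a ha using hN2
  choose c hc using hN3
  obtain ⟨B, hB⟩ : ∃ B : ℕ, ∀ t, ∑ i, |(c t i : ℝ)| ≤ B := by
    obtain ⟨B, hB⟩ := exists_nat_ge (∑ t, ∑ i, |(c t i : ℝ)|)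
    refine ⟨B, fun t => le_trans ?_ hB⟩
    exact Finset.single_le_sum (f := fun t => ∑ i, |(c t i : ℝ)|)
      (fun _ _ => Finset.sum_nonneg fun _ _ => abs_nonneg _) (Finset.mem_univ t)
  refine ⟨N, B + 1, hN1, by omega, fun Q hQ => ?_⟩
  obtain ⟨m, hm1, hm2, hm3⟩ := Pool.Agent.R355.dirichlet (fun i => ((b i : W) : ℝ)) hQ
  refine ⟨m, hm1, hm2.trans (Nat.pow_le_pow_right hQ (by omega)), fun t => ?_⟩
  choose p hp using hm3
  refine ⟨m * a t + ∑ i, c t i * p i, ?_⟩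
  have e : (m * N : ℝ) * y t - ((m * a t + ∑ i, c t i * p i : ℤ) : ℝ) =
      ∑ i, (c t i : ℝ) * ((m : ℝ) * ((b i : W) : ℝ) - p i) := by
    have h3 : ((N : ℝ)) * (r t : ℝ) = (a t : ℝ) := by exact_mod_cast ha t
    have h4 : ∀ i, ((N : ℝ)) * (s t i : ℝ) = (c t i : ℝ) := fun i => by exact_mod_cast hc t i
    rw [hrs t]
    push_cast
    rw [← h3]
    have h5 : (m * N : ℝ) * ((r t : ℝ) + ∑ i, (s t i : ℝ) * ((b i : W) : ℝ)) =
        m * (N * (r t : ℝ)) + ∑ i, (N * (s t i : ℝ)) * ((m : ℝ) * ((b i : W) : ℝ)) := by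
      rw [mul_add, Finset.mul_sum]
      congr 1
      · ring
      · refine Finset.sum_congr rfl fun i _ => by ring
    rw [h5]
    simp only [h4, mul_sub, Finset.sum_sub_distrib]
    ring
  rw [e]
  have hQ0 : (0 : ℝ) < Q := by exact_mod_cast hQ
  calc |∑ i, (c t i : ℝ) * ((m : ℝ) * ((b i : W) : ℝ) - p i)|
      ≤ ∑ i, |(c t i : ℝ) * ((m : ℝ) * ((b i : W) : ℝ) - p i)| := Finset.abs_sum_le_sum_abs _ _
    _ ≤ ∑ i, |(c t i : ℝ)| * (1 / Q) := by
        refine Finset.sum_le_sum fun i _ => ?_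
        rw [abs_mul]
        exact mul_le_mul_of_nonneg_left (hp i).le (abs_nonneg _)
    _ = (∑ i, |(c t i : ℝ)|) * (1 / Q) := by rw [Finset.sum_mul]
    _ ≤ (B : ℝ) * (1 / Q) := mul_le_mul_of_nonneg_right (hB t) (by positivity)
    _ ≤ ((B + 1 : ℕ) : ℝ) / Q := by
        rw [mul_one_div]
        exact div_le_div_of_nonneg_right (by push_cast; linarith) hQ0.le

/-- good approximations, at one scale, of finitely many elements of `LL hq F` by fractions with coordinates -/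
theorem approx_coord {q : ℕ → ℕ} (hq : ∀ k, 2 ≤ q k) {F : IntermediateField ℚ ℝ}
    [FiniteDimensional ℚ F] {d : ℕ} (B : Basis (Fin d) ℚ F) {ι : Type} [Fintype ι] [DecidableEq ι]
    (x : ι → ℝ) (hx : ∀ i, Ap q F (x i)) :
    ∃ g : ℕ, ∀ κ : ℕ, ∃ k₀ : ℕ, ∀ k ≥ k₀, ∃ (v : ℕ) (m : ι → Fin d → ℤ), 1 ≤ v ∧ v ≤ q k ^ g ∧
      (∀ i l, |m i l| ≤ q k ^ g) ∧
      ∀ i, |x i - (∑ l, (m i l : ℝ) * (B l : ℝ)) / v| ≤ (((q k : ℕ) : ℝ) ^ κ)⁻¹ := by
  have hx' : ∀ i, Ap' q F (x i) := fun i => (hx i).to hq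
  choose h hh using hx'
  obtain ⟨c, hc1, hc⟩ := Cx.coord B
  set s := ∑ i, h i with hs
  have hsi : ∀ i, h i ≤ s := fun i => Finset.single_le_sum (f := h) (fun _ _ => Nat.zero_le _)
    (Finset.mem_univ i)
  set n := Fintype.card ι with hn
  refine ⟨(c + s) * n + (c + 2 * s), fun κ => ?_⟩
  choose k₀ hk₀ using fun i => hh i κ
  refine ⟨∑ i, k₀ i, fun k hk => ?_⟩
  have h1 : ∀ i, k₀ i ≤ k := fun i => (Finset.single_le_sum (f := k₀) (fun _ _ => Nat.zero_le _)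
    (Finset.mem_univ i)).trans hk
  choose a ha hxa using fun i => hk₀ i k (h1 i)
  have hq2 := hq k
  have hX : 1 ≤ q k := by omega
  choose v m hv1 hv2 hm hav using fun i => hc _ _ (ha i)
  have hcq : c ≤ q k ^ c := nat_le_pow hq2 c
  have hv3 : ∀ i, v i ≤ q k ^ (c + s) := by
    intro i
    calc v i ≤ c * q k ^ h i := hv2 i
      _ ≤ q k ^ c * q k ^ s := Nat.mul_le_mul hcq (Nat.pow_le_pow_right hX (hsi i))
      _ = _ := by rw [pow_add]
  have hm3 : ∀ i l, |m i l| ≤ ((q k ^ (c + 2 * s) : ℕ) : ℤ) := by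
    intro i l
    refine (hm i l).trans ?_
    have : c * (q k ^ h i) ^ 2 ≤ q k ^ (c + 2 * s) := by
      rw [pow_add, ← pow_mul]
      exact Nat.mul_le_mul hcq (Nat.pow_le_pow_right hX (by have := hsi i; omega))
    exact_mod_cast this
  refine ⟨∏ i, v i, fun i l => m i l * ((∏ j ∈ Finset.univ.erase i, v j : ℕ) : ℤ), ?_, ?_, ?_, ?_⟩
  · exact Nat.one_le_iff_ne_zero.2 (Finset.prod_ne_zero_iff.2 fun i _ => by have := hv1 i; omega)
  · calc ∏ i, v i ≤ ∏ _i : ι, q k ^ (c + s) := Finset.prod_le_prod' fun i _ => hv3 i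
      _ = q k ^ ((c + s) * n) := by rw [Finset.prod_const, Finset.card_univ, ← pow_mul]
      _ ≤ _ := Nat.pow_le_pow_right hX (by omega)
  · intro i l
    have h2 : (∏ j ∈ Finset.univ.erase i, v j) ≤ q k ^ ((c + s) * n) := by
      calc (∏ j ∈ Finset.univ.erase i, v j) ≤ ∏ j, v j :=
            Finset.prod_le_prod_of_subset_of_one_le' (Finset.erase_subset _ _) fun j _ _ => hv1 j
        _ ≤ ∏ _i : ι, q k ^ (c + s) := Finset.prod_le_prod' fun i _ => hv3 i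
        _ = q k ^ ((c + s) * n) := by rw [Finset.prod_const, Finset.card_univ, ← pow_mul]
    rw [abs_mul, Nat.abs_cast]
    calc |m i l| * ((∏ j ∈ Finset.univ.erase i, v j : ℕ) : ℤ)
        ≤ ((q k ^ (c + 2 * s) : ℕ) : ℤ) * ((q k ^ ((c + s) * n) : ℕ) : ℤ) :=
          mul_le_mul (hm3 i l) (by exact_mod_cast h2) (by positivity) (by positivity)
      _ = (q k : ℤ) ^ ((c + s) * n + (c + 2 * s)) := by push_cast; ring
  · intro i
    have h3 : (∑ l, ((m i l * ((∏ j ∈ Finset.univ.erase i, v j : ℕ) : ℤ) : ℤ) : ℝ) * (B l : ℝ)) /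
        ((∏ i, v i : ℕ) : ℝ) = (a i : ℝ) := by
      rw [hav i, ← Finset.mul_prod_erase Finset.univ v (Finset.mem_univ i)]
      have h4 : ((∏ j ∈ Finset.univ.erase i, v j : ℕ) : ℝ) ≠ 0 := by
        have : 0 < ∏ j ∈ Finset.univ.erase i, v j := Finset.prod_pos fun j _ => hv1 j
        exact_mod_cast this.ne'
      have h5 : ((v i : ℕ) : ℝ) ≠ 0 := by
        have := hv1 i
        exact_mod_cast (by omega : v i ≠ 0)
      set R : ℝ := ((∏ j ∈ Finset.univ.erase i, v j : ℕ) : ℝ) with hR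
      have h6 : (∑ l, ((m i l * ((∏ j ∈ Finset.univ.erase i, v j : ℕ) : ℤ) : ℤ) : ℝ) * (B l : ℝ)) =
          (∑ l, (m i l : ℝ) * (B l : ℝ)) * R := by
        rw [Finset.sum_mul]
        refine Finset.sum_congr rfl fun l _ => ?_
        rw [hR]; push_cast; ring
      rw [h6]
      have h7 : (((v i) * ∏ j ∈ Finset.univ.erase i, v j : ℕ) : ℝ) = (v i : ℝ) * R := by
        rw [hR]; push_cast; ring
      rw [h7]
      field_simp
    rw [h3]
    exact hxa i

theorem lt_rpow_of_pow {E Q : ℝ} (hQ : 0 < Q) {S : ℕ} (hS : 1 ≤ S) (h : E ^ S * Q < 1) :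
    E < Q ^ (-(1 / (S : ℝ))) := by
  by_contra hcon
  push Not at hcon
  have hS0 : (S : ℝ) ≠ 0 := by
    have : (S : ℕ) ≠ 0 := by omega
    exact_mod_cast this
  have h1 : (Q ^ (-(1 / (S : ℝ)))) ^ S = Q⁻¹ := by
    rw [← Real.rpow_natCast, ← Real.rpow_mul hQ.le]
    have : -(1 / (S : ℝ)) * S = -1 := by field_simp
    rw [this, Real.rpow_neg_one]
  have h2 : Q⁻¹ ≤ E ^ S := by
    rw [← h1]
    exact pow_le_pow_left₀ (Real.rpow_nonneg hQ.le _) hcon S
  have h3 : 1 ≤ E ^ S * Q := by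
    calc (1 : ℝ) = Q⁻¹ * Q := (inv_mul_cancel₀ hQ.ne').symm
      _ ≤ E ^ S * Q := mul_le_mul_of_nonneg_right h2 hQ.le
  linarith

/-- **Simultaneous approximation of the elements of a finite dimensional space.** -/
theorem approx_space {q : ℕ → ℕ} (hq : ∀ k, 2 ≤ q k) (hunb : ∀ N, ∃ k, N ≤ q k)
    {F : IntermediateField ℚ ℝ} [FiniteDimensional ℚ F] {S : ℕ} (hS1 : 1 ≤ S)
    (L : IntermediateField ℚ ℝ) (hL : ∀ x, x ∈ L → Ap q F x)
    (U : Submodule L ℝ) [Module.Finite L U] (h1 : (1 : ℝ) ∈ U)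
    (hS : finrank ℚ F * finrank L U ≤ S) (J : Finset ℕ) (z : ℕ → ℝ)
    (hz : ∀ j ∈ J, z j ∈ U) (q0 : ℕ) :
    ∃ Q : ℕ, q0 ≤ Q ∧ ∀ j ∈ J, ∃ p : ℤ, |(Q : ℝ) * z j - p| < (Q : ℝ) ^ (-(1 / (S : ℝ))) := by
  classical
  let u : U := ⟨1, h1⟩
  have hu : u ≠ 0 := fun h => one_ne_zero (congrArg Subtype.val h)
  obtain ⟨C', hC'⟩ := Submodule.exists_isCompl (Submodule.span L {u})
  have hfr : finrank L C' + 1 = finrank L U := by
    have h2 := Submodule.finrank_add_eq_of_isCompl hC'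
    rw [finrank_span_singleton hu] at h2
    omega
  set D := finrank L C' with hD
  have hfree : Module.Free L C' := Module.Free.of_divisionRing (K := L) (V := C')
  have hfinC : Module.Finite L C' := inferInstance
  let b : Basis (Fin D) L C' := finBasis L C'
  let w : Option (Fin D) → ℝ := fun o => o.elim 1 (fun i => ((b i : U) : ℝ))
  -- coordinates over `L`
  have hco : ∀ j : J, ∃ x : Option (Fin D) → L, z j = ∑ o, (x o : ℝ) * w o := by
    intro j
    have h3 : (⟨z j, hz j j.2⟩ : U) ∈ Submodule.span L {u} ⊔ C' := by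
      rw [hC'.sup_eq_top]; trivial
    obtain ⟨a, ha, c, hc, hac⟩ := Submodule.mem_sup.1 h3
    obtain ⟨r, rfl⟩ := Submodule.mem_span_singleton.1 ha
    refine ⟨fun o => o.elim r (fun i => b.repr ⟨c, hc⟩ i), ?_⟩
    have h4 : c = ∑ i, b.repr ⟨c, hc⟩ i • (b i : U) := by
      have h := congrArg C'.subtype (b.sum_repr ⟨c, hc⟩)
      rw [map_sum] at h
      simp only [map_smul, Submodule.subtype_apply] at h
      exact h.symm
    have h5 := congrArg Subtype.val hac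
    have h6 : (c : ℝ) = ∑ i, ((b.repr ⟨c, hc⟩ i : L) : ℝ) * ((b i : U) : ℝ) := by
      have h := congrArg U.subtype h4
      rw [map_sum] at h
      simp only [map_smul, Submodule.subtype_apply] at h
      exact h
    have h7 : ((r • u : U) : ℝ) = (r : ℝ) := by
      change (r : ℝ) * (1 : ℝ) = r
      rw [mul_one]
    have h8 : (((r • u + c : U)) : ℝ) = ((r • u : U) : ℝ) + (c : ℝ) := rfl
    rw [h8, h7, h6] at h5
    rw [Fintype.sum_option]
    change z j = (r : ℝ) * 1 + _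
    rw [mul_one]
    exact h5.symm
  choose x hx using hco
  set d := finrank ℚ F with hd
  let B : Basis (Fin d) ℚ F := finBasis ℚ F
  -- the rational space
  let y : Fin d × Option (Fin D) → ℝ := fun t => (B t.1 : ℝ) * w t.2
  set W : Submodule ℚ ℝ := Submodule.span ℚ (Set.range y) with hW
  have hWfin : FiniteDimensional ℚ W := FiniteDimensional.span_of_finite ℚ (Set.finite_range y)
  have hW1 : (1 : ℝ) ∈ W := by
    have h2 : (1 : ℝ) = ∑ l, ((B.repr 1 l : ℚ)) • y (l, none) := by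
      have h := congrArg (fun a : F => (a : ℝ)) (B.sum_repr 1)
      beta_reduce at h
      have h3 : ((∑ i, (B.repr 1) i • B i : F) : ℝ) = ∑ i, (B.repr 1) i • (B i : ℝ) := by
        push_cast
        rfl
      rw [h3] at h
      have h4 : ((1 : F) : ℝ) = 1 := rfl
      rw [h4] at h
      rw [← h]
      refine Finset.sum_congr rfl fun l _ => ?_
      change _ = _ • ((B l : ℝ) * 1)
      rw [mul_one]
    rw [h2]
    exact Submodule.sum_mem _ fun l _ => Submodule.smul_mem _ _ (Submodule.subset_span ⟨_, rfl⟩)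
  have hWS : finrank ℚ W ≤ S := by
    have h2 := finrank_range_le_card (R := ℚ) y
    rw [Fintype.card_prod, Fintype.card_fin, Fintype.card_option, Fintype.card_fin, hfr] at h2
    exact h2.trans hS
  obtain ⟨N, C, hN1, hC1, hdir⟩ := dirichlet_space W hW1 hWS y
    (fun t => Submodule.subset_span ⟨t, rfl⟩)
  obtain ⟨g, hg⟩ := approx_coord hq B (ι := J × Option (Fin D)) (fun t => (x t.1 t.2 : ℝ))
    (fun t => hL _ (x t.1 t.2).2)
  obtain ⟨C0, hC0⟩ := exists_nat_ge (∑ o, |w o|)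
  set n' := d * (D + 1) with hn'
  set a := 2 + n' + g + C with ha
  set b' := 1 + N + g with hb'
  set G := a * S + b' + 1 with hG
  obtain ⟨k₀, hk₀⟩ := hg (G * (S - 1) + N + C0 + G)
  -- the scale
  obtain ⟨k, hk, hkq⟩ : ∃ k ≥ k₀, q0 ≤ q k := by
    obtain ⟨k, hk⟩ := hunb (q0 + ∑ i ∈ Finset.range k₀, q i + 1)
    refine ⟨k, ?_, by omega⟩
    by_contra hlt
    push Not at hlt
    have := Finset.single_le_sum (f := q) (fun _ _ => Nat.zero_le _) (Finset.mem_range.2 hlt)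
    omega
  obtain ⟨v, m, hv1, hv2, hm, hxm⟩ := hk₀ k hk
  set X := q k with hX
  have hX2 : 2 ≤ X := hq k
  have hX1 : 1 ≤ X := by omega
  have hXr : (2 : ℝ) ≤ (X : ℝ) := by exact_mod_cast hX2
  have hXp : ∀ n : ℕ, (0 : ℝ) < (X : ℝ) ^ n := fun n => by positivity
  have hXn : ∀ n : ℕ, (n : ℝ) ≤ (X : ℝ) ^ n := fun n => by exact_mod_cast nat_le_pow hX2 n
  have hXm : ∀ {n n' : ℕ}, n ≤ n' → (X : ℝ) ^ n ≤ (X : ℝ) ^ n' := fun h =>
    pow_le_pow_right₀ (by linarith) h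
  obtain ⟨m0, hm01, hm02, hm03⟩ := hdir (X ^ G) (Nat.one_le_pow _ _ (by omega))
  choose p hp using hm03
  have hm0r : (m0 : ℝ) ≤ (X : ℝ) ^ (G * (S - 1)) := by
    have : m0 ≤ X ^ (G * (S - 1)) := by rw [pow_mul]; exact hm02
    exact_mod_cast this
  have hvr : (v : ℝ) ≤ (X : ℝ) ^ g := by exact_mod_cast hv2
  have hv0 : (v : ℝ) ≠ 0 := by
    have : v ≠ 0 := by omega
    exact_mod_cast this
  refine ⟨X * (m0 * N * v), ?_, fun j hj => ?_⟩
  · have h2 : 1 ≤ m0 * N * v := Nat.mul_pos (Nat.mul_pos hm01 hN1) hv1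
    calc q0 ≤ X := hkq
      _ = X * 1 := (mul_one _).symm
      _ ≤ _ := Nat.mul_le_mul_left _ h2
  set jj : J := ⟨j, hj⟩ with hjj
  refine ⟨∑ o, ∑ l, (X : ℤ) * m (jj, o) l * p (l, o), ?_⟩
  -- the error
  set err : Option (Fin D) → ℝ := fun o => (x jj o : ℝ) - (∑ l, (m (jj, o) l : ℝ) * (B l : ℝ)) / v with herr
  have e : ((X * (m0 * N * v) : ℕ) : ℝ) * z j - ((∑ o, ∑ l, (X : ℤ) * m (jj, o) l * p (l, o) : ℤ) : ℝ) =
      X * (∑ o, ∑ l, (m (jj, o) l : ℝ) * ((m0 * N : ℝ) * y (l, o) - p (l, o)) +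
        m0 * N * v * ∑ o, err o * w o) := by
    have e1 : z j = ∑ o, (x jj o : ℝ) * w o := hx jj
    have e2 : ∀ o, (v : ℝ) * (x jj o : ℝ) = ∑ l, (m (jj, o) l : ℝ) * (B l : ℝ) + v * err o := by
      intro o
      rw [herr]
      field_simp
      ring
    have e3 : (v : ℝ) * z j = ∑ o, (∑ l, (m (jj, o) l : ℝ) * (B l : ℝ)) * w o + v * ∑ o, err o * w o := by
      rw [e1, Finset.mul_sum, Finset.mul_sum, ← Finset.sum_add_distrib]
      refine Finset.sum_congr rfl fun o _ => ?_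
      rw [← mul_assoc, e2 o]
      ring
    have e4 : ∑ o, (∑ l, (m (jj, o) l : ℝ) * (B l : ℝ)) * w o = ∑ o, ∑ l, (m (jj, o) l : ℝ) * y (l, o) := by
      refine Finset.sum_congr rfl fun o _ => ?_
      rw [Finset.sum_mul]
      refine Finset.sum_congr rfl fun l _ => ?_
      change _ = _ * ((B l : ℝ) * w o)
      ring
    push_cast
    have e5 : (X : ℝ) * (m0 * N * v) * z j = X * (m0 * N) * (v * z j) := by ring
    rw [e5, e3, e4]
    simp only [mul_sub, Finset.sum_sub_distrib, mul_add, Finset.mul_sum]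
    have e6 : ∀ o l, (X : ℝ) * (m0 * N) * ((m (jj, o) l : ℝ) * y (l, o)) =
        X * ((m (jj, o) l : ℝ) * (m0 * N * y (l, o))) := fun o l => by ring
    simp only [e6]
    have e7 : ∀ o l, (X : ℝ) * ((m (jj, o) l : ℝ) * (p (l, o) : ℝ)) =
        X * (m (jj, o) l : ℝ) * (p (l, o) : ℝ) := fun o l => by ring
    simp only [e7]
    have e8 : ∀ o, (X : ℝ) * (m0 * N) * (v * (err o * w o)) = X * (m0 * N * v * (err o * w o)) :=
      fun o => by ring
    simp only [e8]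
    ring
  rw [e]
  -- the two parts
  have hA : |∑ o, ∑ l, (m (jj, o) l : ℝ) * ((m0 * N : ℝ) * y (l, o) - p (l, o))| * (X : ℝ) ^ G ≤
      (X : ℝ) ^ (n' + g + C) := by
    have h2 : |∑ o, ∑ l, (m (jj, o) l : ℝ) * ((m0 * N : ℝ) * y (l, o) - p (l, o))| ≤
        n' * ((X : ℝ) ^ g * (C / ((X ^ G : ℕ) : ℝ))) := by
      calc _ ≤ ∑ o, |∑ l, (m (jj, o) l : ℝ) * ((m0 * N : ℝ) * y (l, o) - p (l, o))| :=
            Finset.abs_sum_le_sum_abs _ _
        _ ≤ ∑ o, ∑ l, |(m (jj, o) l : ℝ) * ((m0 * N : ℝ) * y (l, o) - p (l, o))| :=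
            Finset.sum_le_sum fun o _ => Finset.abs_sum_le_sum_abs _ _
        _ ≤ ∑ _o : Option (Fin D), ∑ _l : Fin d, ((X : ℝ) ^ g * (C / ((X ^ G : ℕ) : ℝ))) := by
            refine Finset.sum_le_sum fun o _ => Finset.sum_le_sum fun l _ => ?_
            rw [abs_mul]
            refine mul_le_mul ?_ (hp (l, o)) (abs_nonneg _) (by positivity)
            exact_mod_cast hm (jj, o) l
        _ = _ := by
            rw [Finset.sum_const, Finset.sum_const, Finset.card_univ, Finset.card_univ,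
              Fintype.card_option, Fintype.card_fin, Fintype.card_fin, nsmul_eq_mul, nsmul_eq_mul, hn']
            push_cast; ring
    have h3 : (((X ^ G : ℕ) : ℝ)) = (X : ℝ) ^ G := by push_cast; rfl
    rw [h3] at h2
    calc _ ≤ n' * ((X : ℝ) ^ g * (C / (X : ℝ) ^ G)) * (X : ℝ) ^ G :=
          mul_le_mul_of_nonneg_right h2 (hXp G).le
      _ = n' * (X : ℝ) ^ g * C := by
          have := (hXp G).ne'
          field_simp
      _ ≤ (X : ℝ) ^ n' * (X : ℝ) ^ g * (X : ℝ) ^ C :=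
          mul_le_mul (mul_le_mul_of_nonneg_right (hXn n') (hXp g).le) (hXn C) (by positivity)
            (by positivity)
      _ = _ := by rw [← pow_add, ← pow_add]
  have hBB : |m0 * N * v * ∑ o, err o * w o| * (X : ℝ) ^ G ≤ (X : ℝ) ^ g := by
    have h2 : |∑ o, err o * w o| ≤ ((X : ℝ) ^ (G * (S - 1) + N + C0 + G))⁻¹ * (X : ℝ) ^ C0 := by
      calc |∑ o, err o * w o| ≤ ∑ o, |err o * w o| := Finset.abs_sum_le_sum_abs _ _
        _ ≤ ∑ o, ((X : ℝ) ^ (G * (S - 1) + N + C0 + G))⁻¹ * |w o| := by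
            refine Finset.sum_le_sum fun o _ => ?_
            rw [abs_mul]
            exact mul_le_mul_of_nonneg_right (hxm (jj, o)) (abs_nonneg _)
        _ = ((X : ℝ) ^ (G * (S - 1) + N + C0 + G))⁻¹ * ∑ o, |w o| := by rw [Finset.mul_sum]
        _ ≤ _ := mul_le_mul_of_nonneg_left (hC0.trans (hXn C0)) (by positivity)
    have h3 : |(m0 * N * v : ℝ)| ≤ (X : ℝ) ^ (G * (S - 1)) * (X : ℝ) ^ N * (X : ℝ) ^ g := by
      rw [abs_of_nonneg (by positivity)]
      exact mul_le_mul (mul_le_mul hm0r (hXn N) (by positivity) (by positivity)) hvr (by positivity)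
        (by positivity)
    rw [abs_mul]
    calc _ ≤ ((X : ℝ) ^ (G * (S - 1)) * (X : ℝ) ^ N * (X : ℝ) ^ g) *
          (((X : ℝ) ^ (G * (S - 1) + N + C0 + G))⁻¹ * (X : ℝ) ^ C0) * (X : ℝ) ^ G :=
          mul_le_mul_of_nonneg_right (mul_le_mul h3 h2 (abs_nonneg _) (by positivity)) (hXp G).le
      _ = (X : ℝ) ^ g * (((X : ℝ) ^ (G * (S - 1) + N + C0 + G))⁻¹ *
          ((X : ℝ) ^ (G * (S - 1) + N + C0 + G))) := by
          simp only [pow_add]
          ring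
      _ = (X : ℝ) ^ g := by rw [inv_mul_cancel₀ (hXp _).ne', mul_one]
  have hE : |X * (∑ o, ∑ l, (m (jj, o) l : ℝ) * ((m0 * N : ℝ) * y (l, o) - p (l, o)) +
        m0 * N * v * ∑ o, err o * w o)| * (X : ℝ) ^ G ≤ (X : ℝ) ^ a := by
    rw [abs_mul, Nat.abs_cast]
    have h2 := abs_add_le (∑ o, ∑ l, (m (jj, o) l : ℝ) * ((m0 * N : ℝ) * y (l, o) - p (l, o)))
        (m0 * N * v * ∑ o, err o * w o)
    have h3 : (X : ℝ) ^ g ≤ (X : ℝ) ^ (n' + g + C) := hXm (by omega)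
    calc (X : ℝ) * |_| * (X : ℝ) ^ G ≤ X * (|∑ o, ∑ l, (m (jj, o) l : ℝ) *
          ((m0 * N : ℝ) * y (l, o) - p (l, o))| + |m0 * N * v * ∑ o, err o * w o|) * (X : ℝ) ^ G :=
          mul_le_mul_of_nonneg_right (mul_le_mul_of_nonneg_left h2 (by positivity)) (hXp G).le
      _ = X * (|∑ o, ∑ l, (m (jj, o) l : ℝ) *
          ((m0 * N : ℝ) * y (l, o) - p (l, o))| * (X : ℝ) ^ G +
          |m0 * N * v * ∑ o, err o * w o| * (X : ℝ) ^ G) := by ring
      _ ≤ X * ((X : ℝ) ^ (n' + g + C) + (X : ℝ) ^ (n' + g + C)) :=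
          mul_le_mul_of_nonneg_left (add_le_add hA (hBB.trans h3)) (by positivity)
      _ = 2 * (X * (X : ℝ) ^ (n' + g + C)) := by ring
      _ ≤ X * (X * (X : ℝ) ^ (n' + g + C)) := mul_le_mul_of_nonneg_right hXr (by positivity)
      _ = (X : ℝ) ^ a := by rw [ha]; ring
  set E := |X * (∑ o, ∑ l, (m (jj, o) l : ℝ) * ((m0 * N : ℝ) * y (l, o) - p (l, o)) +
        m0 * N * v * ∑ o, err o * w o)| with hEdef
  have hQ : ((X * (m0 * N * v) : ℕ) : ℝ) ≤ (X : ℝ) ^ (G * (S - 1) + b') := by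
    push_cast
    calc (X : ℝ) * (m0 * N * v) ≤ X * ((X : ℝ) ^ (G * (S - 1)) * (X : ℝ) ^ N * (X : ℝ) ^ g) :=
          mul_le_mul_of_nonneg_left (mul_le_mul (mul_le_mul hm0r (hXn N) (by positivity)
            (by positivity)) hvr (by positivity) (by positivity)) (by positivity)
      _ = _ := by rw [hb']; ring
  have hQ0 : (0 : ℝ) < ((X * (m0 * N * v) : ℕ) : ℝ) := by
    have : 0 < X * (m0 * N * v) := Nat.mul_pos (by omega) (Nat.mul_pos (Nat.mul_pos hm01 hN1) hv1)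
    exact_mod_cast this
  refine lt_rpow_of_pow hQ0 hS1 ?_
  have hE0 : 0 ≤ E := abs_nonneg _
  have h2 : (E * (X : ℝ) ^ G) ^ S ≤ ((X : ℝ) ^ a) ^ S := pow_le_pow_left₀ (by positivity) hE S
  have h3 : E ^ S * ((X * (m0 * N * v) : ℕ) : ℝ) * (X : ℝ) ^ (G * S) ≤
      (X : ℝ) ^ (a * S) * (X : ℝ) ^ (G * (S - 1) + b') := by
    calc E ^ S * ((X * (m0 * N * v) : ℕ) : ℝ) * (X : ℝ) ^ (G * S)
        = (E * (X : ℝ) ^ G) ^ S * ((X * (m0 * N * v) : ℕ) : ℝ) := by
          rw [mul_pow, ← pow_mul]; ring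
      _ ≤ ((X : ℝ) ^ a) ^ S * (X : ℝ) ^ (G * (S - 1) + b') :=
          mul_le_mul h2 hQ hQ0.le (by positivity)
      _ = _ := by rw [← pow_mul]
  have h4 : (X : ℝ) ^ (a * S) * (X : ℝ) ^ (G * (S - 1) + b') < (X : ℝ) ^ (G * S) := by
    rw [← pow_add]
    refine pow_lt_pow_right₀ (by linarith) ?_
    obtain ⟨S', rfl⟩ : ∃ S', S = S' + 1 := ⟨S - 1, by omega⟩
    rw [Nat.add_sub_cancel, Nat.mul_add G S' 1]
    omega
  have h5 : E ^ S * ((X * (m0 * N * v) : ℕ) : ℝ) * (X : ℝ) ^ (G * S) < 1 * (X : ℝ) ^ (G * S) := by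
    rw [one_mul]
    exact h3.trans_lt h4
  exact lt_of_mul_lt_mul_right h5 (hXp _).le

end Pool.Agent.R347.LF
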